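import Pool.Agent.Helper57.T5g.Vw
import Pool.Agent.Helper44.T5g.NearLate
import Pool.Agent.Helper30.T5g.BigQF

/-!
# T5g (MP_12a1af): pairs of states all of whose fronts are common
-/

set_option autoImplicit false

namespace Pool.Agent.Helper57.T5g

open Finset Pool.Agent.Helper27.T4 Pool.Agent.Helper37.T5g
open Pool.Agent.Helper5.ET (bb era)
open Pool.Agent.Helper30.T5g (RT NL BP RT_pos ez pz)
open Pool.Agent.Helper84.T5g Pool.Agent.Helper42.T5.Pr Pool.Agent.Helper99.T5g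
open Pool.Agent.Helper22.HW (cN)
open Pool.Agent.Helper57.T5
open Pool.Agent.Helper44.T5g (Zw dJ uJ IJ DJ clJ CJ CS NN_add mem_Zw near_R_late)
open Pool.Agent.Helper44.T5 (Theta cln cln_inj)

/-! ## the last windows -/

/-- the last windows are the windows with one element -/
theorem Zw_last (m : Sq) (k l : ℕ) (w : Key → ℕ) :
    Zw m k l (rL m k l) w = (Vw m k l w).image (fun v => Un m k l * v) := by
  classical
  ext u
  rw [mem_Zw, mem_image]
  constructor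
  · rintro ⟨y, -, v, hv, rfl⟩
    exact ⟨v, hv, by simp⟩
  · rintro ⟨v, hv, rfl⟩
    exact ⟨fun _ _ => 0, fun t h1 h2 => absurd h2 (by omega), v, hv, by simp⟩

theorem card_Zw_last (m : Sq) (k l : ℕ) (w : Key → ℕ) : (Zw m k l (rL m k l) w).card ≤ 1 := by
  rw [Zw_last]
  exact card_image_le.trans (card_Vw m k l w).le

theorem Jn_eq_mul_DJ {m : Sq} {k l l' t : ℕ} (h : l' ≤ ef m k l t) :
    FF m k l t = Jn m k (sL m k l) l' * DJ m k l l' t := by
  unfold FF Jn DJ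
  rw [← NN_add]
  congr 1
  funext i
  have h1 := Pool.Agent.Helper44.T5g.aJ_mono m k (sL m k l) i h
  show aJ m k (sL m k l) (ef m k l t) i = aJ m k (sL m k l) l' i + dJ m k l l' t i
  unfold dJ
  omega

theorem DJ_pos (m : Sq) (k l l' t : ℕ) : 0 < DJ m k l l' t :=
  NN_pos (pJ_prime k (sL m k l)) _

theorem IJ_pos (m : Sq) (k l l' : ℕ) : 0 < IJ m k l l' :=
  Finset.prod_pos fun i _ => Nat.pow_pos (pJ_prime k (sL m k l) i).pos

/-- number of labels against the quotient -/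
theorem IJ_sq {m : Sq} {k l l' q : ℕ} (h : l' ≤ l)
    (hq : Jn m k (sL m k l) l = Jn m k (sL m k l) l' * q) : IJ m k l l' ^ 2 ≤ q := by
  have hJ : 0 < Jn m k (sL m k l) l' := Pool.Agent.Helper27.T5g.Jn_pos _ _ _ _
  refine Nat.le_of_mul_le_mul_left ?_ hJ
  rw [← hq]
  unfold IJ Jn NN
  rw [← Finset.prod_pow, ← Finset.prod_mul_distrib]
  refine Finset.prod_le_prod' fun i _ => ?_
  rw [← pow_mul, ← pow_add]
  refine Nat.pow_le_pow_right (pJ_prime k (sL m k l) i).pos ?_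
  have h1 := Pool.Agent.Helper44.T5g.aJ_mono m k (sL m k l) i h
  unfold uJ
  omega

/-! ## the class maps are injective -/

theorem class_inj {m : Sq} {k l l' t : ℕ} (hl : l' ≤ l) (hlt : l ≤ ef m k l t) {L Qi γ : ℕ}
    (hQ : L * Qi ≡ 1 [MOD DJ m k l l' t]) {θ : JF → ℕ × ℕ}
    (hθ : θ ∈ Theta (pJ k (sL m k l)) (dJ m k l l' t)) (x : ℕ) :
    ((range (IJ m k l l')).filter
      (fun i => (Qi * (clJ m k l l' t θ i + γ)) % DJ m k l l' t = x)).card ≤ 1 := by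
  classical
  rw [card_le_one]
  intro i hi j hj
  rw [mem_filter, mem_range] at hi hj
  have h1 : Qi * (clJ m k l l' t θ i + γ) ≡ Qi * (clJ m k l l' t θ j + γ)
      [MOD DJ m k l l' t] := hi.2.trans hj.2.symm
  have h2 : ∀ z : ℕ, L * (Qi * z) ≡ z [MOD DJ m k l l' t] := fun z => by
    have h3 := hQ.mul_right z
    rw [one_mul] at h3
    rwa [mul_assoc] at h3
  have h3 := ((h2 _).symm.trans (h1.mul_left L)).trans (h2 _)
  have h4 : clJ m k l l' t θ i ≡ clJ m k l l' t θ j [MOD DJ m k l l' t] :=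
    Nat.ModEq.add_right_cancel' γ h3
  refine cln_inj (pJ_prime k (sL m k l)) (Pool.Agent.Helper44.T5g.pJ_ne_two k _)
    (pJ_inj k (sL m k l)) (aJ m k (sL m k l) l') (dJ m k l l' t) (dJ m k l l' t) (uJ m k l l')
    (fun _ => le_rfl) (fun i => ?_) hθ hi.1 hj.1 h4
  have h5 := Pool.Agent.Helper44.T5g.aJ_mono m k (sL m k l) i hlt
  have h6 := Pool.Agent.Helper44.T5g.aJ_mono m k (sL m k l) i hl
  unfold uJ dJ
  omega

/-! ## the constant -/

theorem pJ_le_BP (k s : ℕ) (i : JF) : pJ k s i ≤ BP k := by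
  rcases i with f | i
  · exact Pool.Agent.Helper30.T5g.pr_le_BP k f
  · refine Fin.cases ?_ (fun f => ?_) i
    · exact (Pool.Agent.Helper30.T5g.buf_lt_BP k).le
    · exact Pool.Agent.Helper30.T5g.pz_le k (s + 1) f

theorem CJ_le (k s : ℕ) : CJ k s ≤ (2 * BP k) ^ 7 := by
  unfold CJ
  refine (Finset.prod_le_prod' (g := fun _ => 2 * BP k) fun i _ => ?_).trans ?_
  · have := pJ_le_BP k s i
    omega
  · rw [Finset.prod_const, Finset.card_univ, Fintype.card_sum, Fintype.card_fin, Fintype.card_fin]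

theorem CS_le (k s t : ℕ) : CS k s t ≤ (2 * BP k) ^ 3 := by
  have h := Pool.Agent.Helper30.T5g.BP_pos k
  have h1 : 2 ^ 3 ≤ (2 * BP k) ^ 3 := Nat.pow_le_pow_left (by omega) 3
  exact (le_of_eq (by unfold CS; norm_num)).trans h1

/-- the constant of the label block -/
noncomputable def CK (k : ℕ) : ℕ :=
  (2 * BP k) ^ 7 * (((2 * BP k) ^ 7 * (2 ^ 3) ^ (k + 1)) * 4)

theorem CK_ge (k s : ℕ) {t : ℕ} (ht : t ≤ k + 1) (R : ℕ) :
    CJ k s * ((CJ k s * ∏ u ∈ range t, CS k s u) * (4 * R)) ≤ CK k * R := by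
  have hB : 0 < BP k := Pool.Agent.Helper30.T5g.BP_pos k
  have h1 := CJ_le k s
  have h2 : ∏ u ∈ range t, CS k s u ≤ (2 ^ 3) ^ (k + 1) := by
    refine (Finset.prod_le_prod' (g := fun _ => 2 ^ 3)
      fun i _ => le_of_eq (by unfold CS; norm_num)).trans ?_
    rw [Finset.prod_const, card_range]
    exact Nat.pow_le_pow_right (by positivity) ht
  unfold CK
  calc CJ k s * ((CJ k s * ∏ u ∈ range t, CS k s u) * (4 * R))
      ≤ (2 * BP k) ^ 7 * (((2 * BP k) ^ 7 * (2 ^ 3) ^ (k + 1)) * (4 * R)) := by gcongr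
    _ = _ := by ring

/-! ## the block -/

/-- **all fronts common** (`l' = l` included): bound for the representations -/
theorem bot_rp {m : Sq} (hm : m.Ok) (k : ℕ) (hk : 1 ≤ k)
    (hQ : Pool.Agent.Helper30.T5g.BigQ m k) : ∃ l0 : ℕ, ∀ l l' : ℕ, l0 ≤ l' →
    l' ≤ l → sL m k l' = sL m k l → bL m k l' = bL m k l →
    ez m (bL m k l) l' = ez m (bL m k l) l →
    ∀ (w : Key → ℕ) (n : ℕ), Rp m k l l' w n ≤ CK k := by
  classical
  obtain ⟨l3, h3⟩ := near_R_late hm k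
  refine ⟨l3, fun l l' hl' hll hs hb he w n => ?_⟩
  obtain ⟨g1, g2, g3, g4, g5, g6⟩ := Pool.Agent.Helper27.T5g.rL_bounds hm k l
  have hrr : rL m k l' = rL m k l := by unfold rL; rw [hs, hb]
  have hef : ef m k l' (rL m k l) = ef m k l (rL m k l) := by
    unfold ef
    rw [hs, show sL m k l - rL m k l = bL m k l by omega]
    exact he
  have hlt : l ≤ ef m k l (rL m k l) := by
    unfold ef
    exact (Pool.Agent.Helper30.T5g.lt_ez hm _ l).le
  have hJ0 : 0 < Jn m k (sL m k l) l' := Pool.Agent.Helper27.T5g.Jn_pos _ _ _ _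
  have hLL0 : 0 < LL (QQ m k (sL m k l)) (rL m k l) := Pool.Agent.Helper27.T5g.LLQ_pos _ _ _ _
  have hmain := (h3 l l' (rL m k l) hl' hll hs (by rw [hrr]) (by omega) le_rfl hef w 1 n (by
    intro θ hθ γ N Qi hQi κ₂ hκ
    refine cN_single (card_Zw_last m k l w) ?_ (Nat.mul_pos hJ0 hLL0)
      (fun x => class_inj hll hlt hQi hθ x) _ _
    have h := card_Zw_last m k l' w
    rwa [hrr] at h)).trans (CK_ge k (sL m k l) g4 1)
  rwa [mul_one] at hmain

theorem CK_le {m : Sq} (hm : OkF m) : CK m.k ≤ 2 ^ (6 * m.q 0) := by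
  have h1 := hm.BP16_le
  have hk := hm.k16_le
  obtain ⟨B, hB⟩ : ∃ B, 2 ^ 40 * BP m.k = B := ⟨_, rfl⟩
  rw [hB] at h1
  have hB0 : 0 < BP m.k := Pool.Agent.Helper30.T5g.BP_pos m.k
  have h2 : 2 * BP m.k ≤ B := by
    rw [← hB]
    exact Nat.mul_le_mul_right _ (by norm_num)
  have h3 : 4 ≤ B := by
    rw [← hB]
    calc 4 ≤ 2 ^ 40 * 1 := by norm_num
      _ ≤ _ := Nat.mul_le_mul_left _ hB0
  have hB1 : 1 ≤ B := by omega
  have h8 : (2 ^ 3) ^ (m.k + 1) ≤ 16 ^ (m.k + 4) :=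
    (Nat.pow_le_pow_left (by norm_num) _).trans (Nat.pow_le_pow_right (by norm_num) (by omega))
  unfold CK
  calc (2 * BP m.k) ^ 7 * (((2 * BP m.k) ^ 7 * (2 ^ 3) ^ (m.k + 1)) * 4)
      ≤ B ^ 7 * ((B ^ 7 * 16 ^ (m.k + 4)) * B) := by gcongr
    _ = B ^ 15 * 16 ^ (m.k + 4) := by ring
    _ ≤ B ^ 16 * 16 ^ (m.k + 4) :=
        Nat.mul_le_mul_right _ (Nat.pow_le_pow_right hB1 (by norm_num))
    _ ≤ 2 ^ m.q 0 * 2 ^ m.q 0 := Nat.mul_le_mul h1 hk
    _ = 2 ^ (2 * m.q 0) := by rw [← pow_add]; congr 1; ring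
    _ ≤ _ := Nat.pow_le_pow_right (by norm_num) (by omega)

theorem PrLe_false {α : Type*} [DecidableEq α] {M : α → ℕ} {K : Finset α}
    {B : (α → ℕ) → Prop} (h : ∀ w, ¬ B w) {ε : ℝ} (hε : 0 ≤ ε) : PrLe M K B ε := by
  refine PrLe_mono (B := fun _ => False) (ε := 0) (fun r _ hw => h _ hw) hε ?_
  unfold PrLe
  simp

/-- **CaseBot** -/
theorem blk_bot : Blk CaseBot RpC := by
  refine ⟨6, 1, fun m hm hk => ?_⟩
  obtain ⟨l1, h1⟩ := bot_rp hm.toOk m.k hk (Pool.Agent.Helper30.T5g.bigQ_of_okF hm)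
  refine ⟨l1, 1, 0, one_pos, le_rfl, ?_⟩
  intro l l' hl' hll _ hP K hK hK'
  obtain ⟨-, hs, hb, ⟨-, -, he⟩, -⟩ := hP
  refine PrLe_false (fun w hw => ?_) (by simp)
  obtain ⟨c, ⟨n, rfl⟩, hlt⟩ := hw
  have h2 := (h1 l l' hl' hll hs hb he w n).trans (CK_le hm)
  omega

/-- **CaseBotD**: no pair -/
theorem blk_botD : Blk CaseBotD RpC := by
  refine ⟨0, 0, fun m hm _ => ⟨0, 1, 0, one_pos, le_rfl, ?_⟩⟩
  intro l l' _ hll ha hP K hK hK'
  exfalso
  obtain ⟨-, -, hd, ⟨-, -, he⟩, -⟩ := hP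
  have hd' : bL m m.k l' + 1 = bL m m.k l := hd
  have h1 := Pool.Agent.Helper30.T5g.dist_of_common hm.toOk hll he
  rcases ha with ha | ⟨ha, -⟩
  · rw [ha] at hd'
    omega
  · omega

/-- **CaseBotS**: no pair -/
theorem blk_botS : Blk CaseBotS RpC := by
  refine ⟨0, 0, fun m hm _ => ⟨0, 1, 0, one_pos, le_rfl, ?_⟩⟩
  intro l l' _ hll ha hP K hK hK'
  exfalso
  obtain ⟨-, ⟨hs, -⟩, ⟨-, -, he⟩, -⟩ := hP
  have h1 := Pool.Agent.Helper30.T5g.dist_of_common hm.toOk hll he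
  rcases ha with ha | ⟨ha, -⟩
  · rw [ha] at hs
    omega
  · omega

end Pool.Agent.Helper57.T5g
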