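import Pool.Agent.Helper57.T5g.Z8
import Pool.Agent.Helper22.NEARg.Stmts
import Pool.Agent.Helper22.NEARsg.Defs

/-!
# T5g (MP_12a1af), blocks NEARg, NEARsg: pairs of elements of the inner windows (Nb8, S8)
-/

set_option autoImplicit false

namespace Pool.Agent.Helper57.T5g

open Finset Pool.Agent.Helper37.T5g Pool.Agent.Helper84.T5g Pool.Agent.Helper99.T5g
open Pool.Agent.Helper44.T5g (Zw mem_Zw)
open Pool.Agent.Helper83.T5g (CB)

/-- **Nb8 / Nb8D** -/
theorem zbad : ∃ E, ∀ m : Sq, OkF m → Pool.Agent.Helper22.NEARg.ZbadS E m := by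
  refine ⟨3, fun m hm => ⟨0, ?_⟩⟩
  intro l' l i _ _ _ hs hb _ hi w _ n
  exact (zpairs_same hm.toOk hs hb hi w n).trans (CB_pow_le' hm)

/-- the elements of the windows with an outer key -/
theorem mem_ZwO {m : Sq} {k l s : ℕ} {o : JF → ℕ} {w : Key → ℕ} {u : ℕ}
    (hu : u ∈ Pool.Agent.Helper22.NEARsg.ZwO m k l s o w) :
    ∃ y : ℕ → Fin 3 → ℕ, (∀ t, s ≤ t → t < rL m k l → y t ∈ Ys m k l t) ∧ ∃ v ∈ Vw m k l w,
      u = ∑ t ∈ Ico s (rL m k l), cs m k l t w (if t = 0 then o else 0) (y t) + Un m k l * v := by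
  unfold Pool.Agent.Helper22.NEARsg.ZwO at hu
  simp only [mem_image, mem_product, Fintype.mem_piFinset, Prod.exists] at hu
  set r := rL m k l with hr
  have key : ∀ g : ℕ → ℕ, ∑ t ∈ Ico s r, g t = ∑ t : Fin (r - s), g (s + t) := by
    intro g
    rw [Finset.sum_Ico_eq_sum_range, ← Fin.sum_univ_eq_sum_range (fun i => g (s + i))]
  obtain ⟨y, v, ⟨hy, hv⟩, rfl⟩ := hu
  refine ⟨fun t => if h : t - s < r - s then y ⟨t - s, h⟩ else 0, ?_, v, hv, ?_⟩
  · intro t h1 h2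
    have h3 : t - s < r - s := by omega
    have h4 := hy ⟨t - s, h3⟩
    simp only [show s + (t - s) = t by omega] at h4
    simp only [dif_pos h3]
    exact h4
  · congr 1
    rw [key]
    refine Finset.sum_congr rfl (fun t _ => ?_)
    have h3 : s + (t : ℕ) - s < r - s := by have := t.2; omega
    have h4 : (⟨s + (t : ℕ) - s, h3⟩ : Fin (r - s)) = t := Fin.ext (by simp)
    simp only [dif_pos h3, h4]

/-- **S8** -/
theorem zbadS : ∃ E, ∀ m : Sq, OkF m → Pool.Agent.Helper22.NEARsg.ZbadS E m := by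
  refine ⟨3, fun m hm => ⟨0, ?_⟩⟩
  intro l' l i _ _ _ hsp hi1 hi w _ o n
  obtain ⟨hs, hb⟩ := hsp
  obtain ⟨g1, g2, g3, g4, g5, g6⟩ := Pool.Agent.Helper27.T5g.rL_bounds hm.toOk m.k l
  obtain ⟨g1', g2', g3', g4', g5', g6'⟩ := Pool.Agent.Helper27.T5g.rL_bounds hm.toOk m.k l'
  refine (zpairs_split (i := i) (i' := i - 1) hm.toOk (by omega) hi (by omega) (by omega) w
    (fun _ => 0) (fun t => if t = 0 then o else 0) (Zw m m.k l i w)
    (Pool.Agent.Helper22.NEARsg.ZwO m m.k l' (i - 1) o w) (fun u hu => mem_Zw.1 hu)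
    (fun u hu => mem_ZwO hu) n).trans (CB_pow_le' hm)

end Pool.Agent.Helper57.T5g
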