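import Pool.Agent.Helper57.T5g.Vw
import Pool.Agent.Helper83.T5g.LeafCase
import Pool.Agent.Helper44.T5g.Win

/-!
# T5g (MP_12a1af): pairs of elements of the inner windows, deterministic
-/

set_option autoImplicit false

namespace Pool.Agent.Helper57.T5g

open Finset Pool.Agent.Helper27.T4 Pool.Agent.Helper37.T5g
open Pool.Agent.Helper5.ET (bb era)
open Pool.Agent.Helper30.T5g (RT NL BP RT_pos ez pz)
open Pool.Agent.Helper84.T5g Pool.Agent.Helper57.T5 Pool.Agent.Helper42.T5.Pr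
open Pool.Agent.Helper99.T5g
open Pool.Agent.Helper44.T5g (Zw mem_Zw Zw_split dvd_Zw)
open Pool.Agent.Helper83.T5g (CB CB_pos leaf_count dec_gen TH qN Un_eq NL_eq_qN)

theorem Un_dvd {m : Sq} {k l l' : ℕ} (hm : m.Ok) (hl : l' ≤ l) (hb : bL m k l' = bL m k l)
    (hbb : bb 0 ≤ mL m k l') : Un m k l' ∣ Un m k l :=
  ⟨_, Un_eq hm hl hb hbb⟩

theorem LL_shift_dvd (Q : ℕ → ℕ) (i t : ℕ) : LL (fun u => Q (i + u)) t ∣ LL Q (i + t) := by
  refine ⟨LL Q i, ?_⟩
  unfold LL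
  rw [Finset.prod_range_add, mul_comm]

/-- **decoding of the static levels `i, ..., j - 1`** of the inner windows of two states with the
same number of split levels -/
theorem zw_iter {m : Sq} {k l l' i j R : ℕ} (hm : m.Ok) (hs : sL m k l' = sL m k l) (hij : i ≤ j)
    (hj : j ≤ rL m k l) (hj' : j ≤ rL m k l') (w : Key → ℕ)
    (hR : ∀ n, ((Zw m k l j w ×ˢ Zw m k l' j w).filter (fun q => q.1 + q.2 = n)).card ≤ R)
    (n : ℕ) :
    ((Zw m k l i w ×ˢ Zw m k l' i w).filter (fun q => q.1 + q.2 = n)).card ≤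
      CB k ^ (j - i) * R := by
  classical
  obtain ⟨h, rfl⟩ : ∃ h, j = i + h := ⟨j - i, by omega⟩
  rw [Nat.add_sub_cancel_left]
  -- representations
  have hrep : ∀ u, ∃ yv : (ℕ → Fin 3 → ℕ) × ℕ, u ∈ Zw m k l i w →
      (∀ r < h, yv.1 r ∈ Ys m k l (i + r)) ∧ yv.2 ∈ Zw m k l (i + h) w ∧
      u = ∑ r ∈ range h, cs m k l (i + r) w 0 (yv.1 r) + yv.2 := by
    intro u
    by_cases hu : u ∈ Zw m k l i w
    · obtain ⟨y, hy, v, hv, e⟩ := Zw_split h hj hu
      exact ⟨(y, v), fun _ => ⟨hy, hv, e⟩⟩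
    · exact ⟨(fun _ => 0, 0), fun h => absurd h hu⟩
  have hrep' : ∀ u, ∃ yv : (ℕ → Fin 3 → ℕ) × ℕ, u ∈ Zw m k l' i w →
      (∀ r < h, yv.1 r ∈ Ys m k l' (i + r)) ∧ yv.2 ∈ Zw m k l' (i + h) w ∧
      u = ∑ r ∈ range h, cs m k l' (i + r) w 0 (yv.1 r) + yv.2 := by
    intro u
    by_cases hu : u ∈ Zw m k l' i w
    · obtain ⟨y, hy, v, hv, e⟩ := Zw_split h hj' hu
      exact ⟨(y, v), fun _ => ⟨hy, hv, e⟩⟩
    · exact ⟨(fun _ => 0, 0), fun h => absurd h hu⟩
  choose f hf using hrep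
  choose f' hf' using hrep'
  set S := (Zw m k l i w ×ˢ Zw m k l' i w).filter (fun q => q.1 + q.2 = n) with hS
  have hSm : ∀ q ∈ S, (q.1 ∈ Zw m k l i w ∧ q.2 ∈ Zw m k l' i w) ∧ q.1 + q.2 = n := by
    intro q hq
    rw [hS, mem_filter, mem_product] at hq
    exact hq
  have hcs : ∀ t y, LL (QQ m k (sL m k l)) t ∣ cs m k l t w 0 y := fun t y =>
    (dvd_mul_left _ _).trans (Pool.Agent.Helper48.T5g.cs_dvd m k l t w 0 y)
  have hcs' : ∀ t y, LL (QQ m k (sL m k l)) t ∣ cs m k l' t w 0 y := fun t y => by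
    have h1 := (dvd_mul_left _ _).trans (Pool.Agent.Helper48.T5g.cs_dvd m k l' t w 0 y)
    rwa [hs] at h1
  refine (leaf_count S h
    (fun t => Ys m k l (i + t) ×ˢ Ys m k l' (i + t))
    (fun t y => cs m k l (i + t) w 0 y.1 + cs m k l' (i + t) w 0 y.2)
    (fun t => QQ m k (sL m k l) (i + t)) (fun _ => CB k) ?_ ?_
    (fun q t => ((f q.1).1 t, (f' q.2).1 t)) ?_ 0 n
    (fun q => (f q.1).2) (fun q => (f' q.2).2) ?_ ?_ ?_ R ?_).trans ?_
  · intro t _ y _
    exact (LL_shift_dvd (QQ m k (sL m k l)) i t).trans (dvd_add (hcs _ _) (hcs' _ _))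
  · intro t ht T
    exact dec_gen hm (by rw [hs]) (by omega) (by omega) w _ _ T
  · intro q hq t
    obtain ⟨⟨h1, h2⟩, -⟩ := hSm q hq
    exact mem_product.2 ⟨(hf _ h1).1 t t.2, (hf' _ h2).1 t t.2⟩
  · intro q hq
    obtain ⟨⟨h1, h2⟩, -⟩ := hSm q hq
    exact ((LL_shift_dvd (QQ m k (sL m k l)) i h).trans (dvd_mul_left _ _)).trans
      (dvd_Zw hm hj (hf _ h1).2.1)
  · intro q hq
    obtain ⟨⟨h1, h2⟩, -⟩ := hSm q hq
    have h3 := dvd_Zw hm hj' (hf' _ h2).2.1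
    rw [hs] at h3
    exact ((LL_shift_dvd (QQ m k (sL m k l)) i h).trans (dvd_mul_left _ _)).trans h3
  · intro q hq
    obtain ⟨⟨h1, h2⟩, h3⟩ := hSm q hq
    have e1 := (hf _ h1).2.2
    have e2 := (hf' _ h2).2.2
    rw [← Fin.sum_univ_eq_sum_range (fun r => cs m k l (i + r) w 0 ((f q.1).1 r))] at e1
    rw [← Fin.sum_univ_eq_sum_range (fun r => cs m k l' (i + r) w 0 ((f' q.2).1 r))] at e2
    rw [zero_add, Finset.sum_add_distrib]
    simp only
    omega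
  · intro z N
    refine le_trans (card_le_card_of_injOn (fun q => ((f q.1).2, (f' q.2).2)) ?_ ?_) (hR N)
    · intro q hq
      rw [mem_coe, mem_filter] at hq
      obtain ⟨⟨h1, h2⟩, h3⟩ := hSm q hq.1
      rw [mem_coe, mem_filter, mem_product]
      exact ⟨⟨(hf _ h1).2.1, (hf' _ h2).2.1⟩, hq.2.2⟩
    · intro q hq p hp h
      rw [mem_coe, mem_filter] at hq hp
      obtain ⟨⟨h1, h2⟩, -⟩ := hSm q hq.1
      obtain ⟨⟨g1, g2⟩, -⟩ := hSm p hp.1
      simp only [Prod.mk.injEq] at h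
      have hlab := hq.2.1.trans hp.2.1.symm
      have e1 := (hf _ h1).2.2
      have e2 := (hf' _ h2).2.2
      have e3 := (hf _ g1).2.2
      have e4 := (hf' _ g2).2.2
      rw [← Fin.sum_univ_eq_sum_range (fun r => cs m k l (i + r) w 0 ((f q.1).1 r))] at e1
      rw [← Fin.sum_univ_eq_sum_range (fun r => cs m k l' (i + r) w 0 ((f' q.2).1 r))] at e2
      rw [← Fin.sum_univ_eq_sum_range (fun r => cs m k l (i + r) w 0 ((f p.1).1 r))] at e3
      rw [← Fin.sum_univ_eq_sum_range (fun r => cs m k l' (i + r) w 0 ((f' p.2).1 r))] at e4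
      have a1 : ∀ t : Fin _, (f q.1).1 t = (f p.1).1 t := fun t =>
        congrArg Prod.fst (congrFun hlab t)
      have a2 : ∀ t : Fin _, (f' q.2).1 t = (f' p.2).1 t := fun t =>
        congrArg Prod.snd (congrFun hlab t)
      refine Prod.ext ?_ ?_
      · rw [e1, e3, h.1]
        simp only [a1]
      · rw [e2, e4, h.2]
        simp only [a2]
  · rw [prod_const, card_range]

/-- **pairs of elements of inner windows against pairs of elements of the random windows**; the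
levels `i, i + 1, ...` of `l` and `i', i' + 1, ...` of `l'` belong to the same triples; the outer
keys are arbitrary -/
theorem zpairs_gen {m : Sq} {k l l' i i' R : ℕ} (hm : m.Ok) (hsi : sL m k l - i = sL m k l' - i')
    (hi : i ≤ rL m k l) (hi' : i' ≤ rL m k l') (hr : rL m k l - i = rL m k l' - i') (w : Key → ℕ)
    (o o' : ℕ → JF → ℕ) (Z Z' : Finset ℕ)
    (hZ : ∀ u ∈ Z, ∃ y : ℕ → Fin 3 → ℕ, (∀ t, i ≤ t → t < rL m k l → y t ∈ Ys m k l t) ∧
      ∃ v ∈ Vw m k l w, u = ∑ t ∈ Ico i (rL m k l), cs m k l t w (o t) (y t) + Un m k l * v)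
    (hZ' : ∀ u ∈ Z', ∃ y : ℕ → Fin 3 → ℕ, (∀ t, i' ≤ t → t < rL m k l' → y t ∈ Ys m k l' t) ∧
      ∃ v ∈ Vw m k l' w,
        u = ∑ t ∈ Ico i' (rL m k l'), cs m k l' t w (o' t) (y t) + Un m k l' * v)
    (hR : ∀ n, (vprs m k l l' w n).card ≤ R) (n : ℕ) :
    ((Z ×ˢ Z').filter (fun q => q.1 + q.2 = n)).card ≤ CB k ^ (rL m k l - i) * R := by
  classical
  obtain ⟨g1, g2, g3, g4, g5, g6⟩ := Pool.Agent.Helper27.T5g.rL_bounds hm k l
  obtain ⟨g1', g2', g3', g4', g5', g6'⟩ := Pool.Agent.Helper27.T5g.rL_bounds hm k l'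
  have hQQ : ∀ t, QQ m k (sL m k l) (i + t) = QQ m k (sL m k l') (i' + t) := by
    intro t
    unfold QQ
    congr 1
    omega
  -- representations
  have hrep : ∀ u, ∃ yv : (ℕ → Fin 3 → ℕ) × ℕ, u ∈ Z →
      (∀ t, i ≤ t → t < rL m k l → yv.1 t ∈ Ys m k l t) ∧ yv.2 ∈ Vw m k l w ∧
      u = ∑ t ∈ Ico i (rL m k l), cs m k l t w (o t) (yv.1 t) + Un m k l * yv.2 := by
    intro u
    by_cases hu : u ∈ Z
    · obtain ⟨y, hy, v, hv, e⟩ := hZ u hu
      exact ⟨(y, v), fun _ => ⟨hy, hv, e⟩⟩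
    · exact ⟨(fun _ => 0, 0), fun h => absurd h hu⟩
  have hrep' : ∀ u, ∃ yv : (ℕ → Fin 3 → ℕ) × ℕ, u ∈ Z' →
      (∀ t, i' ≤ t → t < rL m k l' → yv.1 t ∈ Ys m k l' t) ∧ yv.2 ∈ Vw m k l' w ∧
      u = ∑ t ∈ Ico i' (rL m k l'), cs m k l' t w (o' t) (yv.1 t) + Un m k l' * yv.2 := by
    intro u
    by_cases hu : u ∈ Z'
    · obtain ⟨y, hy, v, hv, e⟩ := hZ' u hu
      exact ⟨(y, v), fun _ => ⟨hy, hv, e⟩⟩
    · exact ⟨(fun _ => 0, 0), fun h => absurd h hu⟩
  choose f hf using hrep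
  choose f' hf' using hrep'
  set S := (Z ×ˢ Z').filter (fun q => q.1 + q.2 = n) with hS
  have hSm : ∀ q ∈ S, (q.1 ∈ Z ∧ q.2 ∈ Z') ∧ q.1 + q.2 = n := by
    intro q hq
    rw [hS, mem_filter, mem_product] at hq
    exact hq
  have key : ∀ g : ℕ → ℕ, ∑ t ∈ Ico i (rL m k l), g t =
      ∑ t : Fin (rL m k l - i), g (i + t) := by
    intro g
    rw [Finset.sum_Ico_eq_sum_range, ← Fin.sum_univ_eq_sum_range (fun j => g (i + j))]
  have key' : ∀ g : ℕ → ℕ, ∑ t ∈ Ico i' (rL m k l'), g t =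
      ∑ t : Fin (rL m k l - i), g (i' + t) := by
    intro g
    rw [Finset.sum_Ico_eq_sum_range, ← hr, ← Fin.sum_univ_eq_sum_range (fun j => g (i' + j))]
  have hcs : ∀ t y, LL (fun u => QQ m k (sL m k l) (i + u)) t ∣ cs m k l (i + t) w (o (i + t)) y :=
    fun t y => (LL_shift_dvd (QQ m k (sL m k l)) i t).trans ((dvd_mul_left _ _).trans
      (Pool.Agent.Helper48.T5g.cs_dvd m k l (i + t) w (o (i + t)) y))
  have hfun : (fun u => QQ m k (sL m k l) (i + u)) = fun u => QQ m k (sL m k l') (i' + u) :=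
    funext hQQ
  have hcs' : ∀ t y, LL (fun u => QQ m k (sL m k l) (i + u)) t ∣
      cs m k l' (i' + t) w (o' (i' + t)) y := fun t y => by
    rw [hfun]
    exact (LL_shift_dvd (QQ m k (sL m k l')) i' t).trans ((dvd_mul_left _ _).trans
      (Pool.Agent.Helper48.T5g.cs_dvd m k l' (i' + t) w (o' (i' + t)) y))
  refine (leaf_count S (rL m k l - i)
    (fun t => Ys m k l (i + t) ×ˢ Ys m k l' (i' + t))
    (fun t y => cs m k l (i + t) w (o (i + t)) y.1 + cs m k l' (i' + t) w (o' (i' + t)) y.2)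
    (fun t => QQ m k (sL m k l) (i + t)) (fun _ => CB k) ?_ ?_
    (fun q t => ((f q.1).1 (i + t), (f' q.2).1 (i' + t))) ?_ 0 n
    (fun q => Un m k l * (f q.1).2) (fun q => Un m k l' * (f' q.2).2) ?_ ?_ ?_ R ?_).trans ?_
  · intro t _ y _
    exact dvd_add (hcs _ _) (hcs' _ _)
  · intro t ht T
    exact dec_gen hm (by omega) (by omega) (by omega) w _ _ T
  · intro q hq t
    obtain ⟨⟨h1, h2⟩, -⟩ := hSm q hq
    have ht := t.2
    refine mem_product.2 ⟨(hf _ h1).1 _ (by omega) (by omega), ?_⟩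
    exact (hf' _ h2).1 _ (by omega) (by omega)
  · intro q _
    have h1 := LL_shift_dvd (QQ m k (sL m k l)) i (rL m k l - i)
    rw [Nat.add_sub_cancel' hi] at h1
    exact h1.trans ((dvd_mul_left _ _).mul_right _)
  · intro q _
    rw [hfun, hr]
    have h1 := LL_shift_dvd (QQ m k (sL m k l')) i' (rL m k l' - i')
    rw [Nat.add_sub_cancel' hi'] at h1
    exact h1.trans ((dvd_mul_left _ _).mul_right _)
  · intro q hq
    obtain ⟨⟨h1, h2⟩, h3⟩ := hSm q hq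
    have e1 := (hf _ h1).2.2
    have e2 := (hf' _ h2).2.2
    rw [key'] at e2
    rw [key] at e1
    rw [zero_add, Finset.sum_add_distrib]
    simp only
    omega
  · intro z N
    refine le_trans (card_le_card_of_injOn (fun q => ((f q.1).2, (f' q.2).2)) ?_ ?_) (hR N)
    · intro q hq
      rw [mem_coe, mem_filter] at hq
      obtain ⟨⟨h1, h2⟩, h3⟩ := hSm q hq.1
      rw [mem_coe]
      unfold vprs
      rw [mem_filter, mem_product]
      exact ⟨⟨(hf _ h1).2.1, (hf' _ h2).2.1⟩, hq.2.2⟩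
    · intro q hq p hp h
      rw [mem_coe, mem_filter] at hq hp
      obtain ⟨⟨h1, h2⟩, -⟩ := hSm q hq.1
      obtain ⟨⟨p1, p2⟩, -⟩ := hSm p hp.1
      simp only [Prod.mk.injEq] at h
      have hlab := hq.2.1.trans hp.2.1.symm
      have e1 := (hf _ h1).2.2
      have e2 := (hf' _ h2).2.2
      have e3 := (hf _ p1).2.2
      have e4 := (hf' _ p2).2.2
      rw [key'] at e2 e4
      rw [key] at e1 e3
      have a1 : ∀ t : Fin (rL m k l - i), (f q.1).1 (i + t) = (f p.1).1 (i + t) := fun t =>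
        congrArg Prod.fst (congrFun hlab t)
      have a2 : ∀ t : Fin (rL m k l - i), (f' q.2).1 (i' + t) = (f' p.2).1 (i' + t) := fun t =>
        congrArg Prod.snd (congrFun hlab t)
      refine Prod.ext ?_ ?_
      · rw [e1, e3, h.1]
        simp only [a1]
      · rw [e2, e4, h.2]
        simp only [a2]
  · rw [prod_const, card_range]

/-- pairs with a given sum, one of the sets has at most one element -/
theorem pairs_single {Z Z' : Finset ℕ} (h : Z.card ≤ 1) (n : ℕ) :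
    ((Z ×ˢ Z').filter (fun q => q.1 + q.2 = n)).card ≤ 1 := by
  rw [card_le_one]
  intro a ha b hb
  rw [mem_filter, mem_product] at ha hb
  have h1 := card_le_one.1 h _ ha.1.1 _ hb.1.1
  exact Prod.ext h1 (by omega)

/-- the last windows have one element -/
theorem card_Zw_last' (m : Sq) (k l : ℕ) (w : Key → ℕ) : (Zw m k l (rL m k l) w).card ≤ 1 := by
  classical
  rw [card_le_one]
  intro a ha b hb
  obtain ⟨y, -, v, hv, rfl⟩ := mem_Zw.1 ha
  obtain ⟨y', -, v', hv', rfl⟩ := mem_Zw.1 hb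
  rw [mem_Vw] at hv hv'
  rw [hv, hv']
  simp

/-- **pairs of elements of the inner windows**, no SPLIT (a DROP is allowed) -/
theorem zpairs_same {m : Sq} {k l l' i : ℕ} (hm : m.Ok) (hs : sL m k l' = sL m k l)
    (hb : bL m k l' ≤ bL m k l) (hi : i ≤ rL m k l) (w : Key → ℕ) (n : ℕ) :
    ((Zw m k l i w ×ˢ Zw m k l' i w).filter (fun q => q.1 + q.2 = n)).card ≤ CB k ^ (k + 1) := by
  obtain ⟨g1, g2, g3, g4, g5, g6⟩ := Pool.Agent.Helper27.T5g.rL_bounds hm k l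
  have hr : rL m k l ≤ rL m k l' := by unfold rL; rw [hs]; omega
  refine (zw_iter (R := 1) hm hs hi le_rfl hr w
    (fun n => pairs_single (card_Zw_last' m k l w) n) n).trans ?_
  rw [mul_one]
  exact Nat.pow_le_pow_right (CB_pos k) (by omega)

/-- **pairs of elements of the inner windows**, the same dropped levels, arbitrary outer keys -/
theorem zpairs_split {m : Sq} {k l l' i i' : ℕ} (hm : m.Ok)
    (hsi : sL m k l - i = sL m k l' - i')
    (hi : i ≤ rL m k l) (hi' : i' ≤ rL m k l') (hr : rL m k l - i = rL m k l' - i') (w : Key → ℕ)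
    (o o' : ℕ → JF → ℕ) (Z Z' : Finset ℕ)
    (hZ : ∀ u ∈ Z, ∃ y : ℕ → Fin 3 → ℕ, (∀ t, i ≤ t → t < rL m k l → y t ∈ Ys m k l t) ∧
      ∃ v ∈ Vw m k l w, u = ∑ t ∈ Ico i (rL m k l), cs m k l t w (o t) (y t) + Un m k l * v)
    (hZ' : ∀ u ∈ Z', ∃ y : ℕ → Fin 3 → ℕ, (∀ t, i' ≤ t → t < rL m k l' → y t ∈ Ys m k l' t) ∧
      ∃ v ∈ Vw m k l' w,
        u = ∑ t ∈ Ico i' (rL m k l'), cs m k l' t w (o' t) (y t) + Un m k l' * v) (n : ℕ) :
    ((Z ×ˢ Z').filter (fun q => q.1 + q.2 = n)).card ≤ CB k ^ (k + 1) := by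
  obtain ⟨g1, g2, g3, g4, g5, g6⟩ := Pool.Agent.Helper27.T5g.rL_bounds hm k l
  refine (zpairs_gen (R := 1) hm hsi hi hi' hr w o o' Z Z' hZ hZ'
    (fun n => vprs_le m k l l' w n) n).trans ?_
  rw [mul_one]
  exact Nat.pow_le_pow_right (CB_pos k) (by omega)

/-- the decoding constant is a power of the quotient of the sizes -/
theorem CB_pow_le' {m : Sq} (hm : OkF m) : CB m.k ^ (m.k + 1) ≤ 2 ^ (3 * m.q 0) := by
  have h1 := hm.k_le_q
  unfold CB
  rw [← pow_mul]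
  exact Nat.pow_le_pow_right (by norm_num) (by omega)

end Pool.Agent.Helper57.T5g
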