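import Pool.Agent.Helper37.T5g.BotOne
import Pool.Agent.Helper63.T5g.NumG0
import Pool.Agent.Helper22.NEARg.Stmts
import Pool.Agent.Helper57.T5g.Bot
import Pool.Agent.Helper57.T5g.Z8

/-!
# T5g (MP_12a1af), block NEARg: the last windows, small distance (deterministic)
-/

set_option autoImplicit false

namespace Pool.Agent.Helper57.T5g

open Finset Pool.Agent.Helper22.SL Pool.Agent.Helper57.T5
open Pool.Agent.Helper30.T5g (RT RT_pos BigQ)
open Pool.Agent.Helper84.T5g Pool.Agent.Helper37.T5g
open Pool.Agent.Helper22.NEARg hiding lam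
open Pool.Agent.Helper63.T5b (NumX)
open Pool.Agent.Helper63.T5g Pool.Agent.Helper44.T5g
open Pool.Agent.Helper63.T5 (lam lam_gt lam_lt)
open Pool.Agent.Helper5.ET (bb)

variable {m : Sq} {k t l' l : ℕ}

/-- the last windows, in units -/
theorem Bw_last (m : Sq) (k l : ℕ) (w : Key → ℕ) : Bw m k l (rL m k l) w = Vw m k l w := by
  classical
  unfold Bw
  rw [Zw_last, image_image]
  have h0 : 0 < Un m k l := Pool.Agent.Helper27.T5g.Un_pos m k l
  refine (image_congr (g := fun v => v) ?_).trans image_id'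
  intro v _
  show Un m k l * v / Un m k l = v
  rw [Nat.mul_div_cancel_left _ h0]

theorem Bw_last_eq (m : Sq) (k l : ℕ) (w : Key → ℕ) :
    Bw m k l (rL m k l) w = {RT m k (bL m k l)} := Bw_last m k l w

/-- **Nb9**: the last windows, small distance -/
theorem pp_bot (hm : m.Ok) (k : ℕ) (hQ : BigQ m k) : ∃ K0 : ℕ, ∀ t l' l, K0 ≤ l' →
    PDb m k t l' l → SameB m k l' l → CaseBt m k t l' l → ∀ w : Key → ℕ,
    ∀ c ∈ Jx m k t l' l, PPx m k t l' l w c ≤ Real.exp (-(dReg m k t l' l)) := by
  classical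
  obtain ⟨l1, h1⟩ := exists_lateN hm k (50 * Real.log (2 * KB k))
  refine ⟨l1, fun t l' l hl' h hB hcase w c hc => ?_⟩
  have hL := h1 l' hl'
  have hX := numX hm h hL
  have hT := tgB hm h hL hc
  have hh1 : 1 ≤ (PN m k t l' l).h := hb_pos m k t l' l
  have hbeq : bL m k l' = bL m k l := hB
  have hsb : sb m k t l' l = rL m k l := hcase.1
  have hrr : rL m k l' = rL m k l := by
    unfold rL
    rw [h.sL_eq, hbeq]
  have hrl := Pool.Agent.Helper27.T5g.rL_bounds hm k l
  have hW : wW m k l (sb m k t l' l) = SS m (bL m k l) := by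
    unfold wW
    rw [hsb]
    congr 1
    unfold rL
    have := bL_le_idx (m := m) (k := k) (l := l) hm (Nat.zero_le _)
    omega
  have hD0 : 0 ≤ lg m k l - lg m k l' := by
    have := lg_mono m k h.le
    linarith
  have hs0 : 0 ≤ lg m k (ef m k l' (t + (PN m k t l' l).h)) - lg m k l' := by
    have := lg_mono m k (lt_ef hm k l' (t + (PN m k t l' l).h)).le
    linarith
  have hIr := IrB_le hm h hL (le_refl (PN m k t l' l).h)
  have hlam := lam_gt
  have hwB : wB m k t l (PN m k t l' l).h = (SS m (bL m k l) : ℝ) * lam := by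
    rw [← hW]
    rfl
  have key := NumX.bot_one hX hT (RT m k (bL m k l)) (RT m k (bL m k l')) (CI := 0) hh1
    (fun h2 => by
      refine hIr.trans (max_le (by rw [Real.exp_zero]) ?_)
      apply Real.exp_le_exp.2
      linarith)
    (by
      refine hIr.trans (max_le ?_ ?_)
      · rw [← Real.exp_zero]
        apply Real.exp_le_exp.2
        linarith
      · apply Real.exp_le_exp.2
        linarith)
    (δ := dReg m k t l' l) (by
      have e1 := hL.c
      rw [hbeq] at e1
      have e2 : (0 : ℝ) ≤ SS m (bL m k l) := Nat.cast_nonneg _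
      unfold dReg
      rw [hwB, hW]
      nlinarith)
  have e1 : PPx m k t l' l w c =
      ((PP (PN m k t l' l) (nTx m k t l' l c) (XTx m k t l' l c)
        {RT m k (bL m k l)} {RT m k (bL m k l')} : ℕ) : ℝ) *
        (PN m k t l' l).A (PN m k t l' l).h * (PN m k t l' l).pc (PN m k t l' l).h := by
    unfold PPx
    rw [hsb, Bw_last_eq]
    rw [← hrr, Bw_last_eq]
  rw [e1]
  exact key

/-- **Nb9**, the line of the block NEARg -/
theorem ppBot (m : Sq) (hm : Pool.Agent.Helper99.T5g.OkF m) :
    Pool.Agent.Helper22.NEARg.PpBotS m m.k :=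
  pp_bot hm.toOk m.k (Pool.Agent.Helper30.T5g.bigQ_of_okF hm)

end Pool.Agent.Helper57.T5g
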