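import Pool.Agent.Helper57.T5g.PpG
import Pool.Agent.Helper39.T5g.SlInstS
import Pool.Agent.Helper63.T5g.SplitNum

/-!
# T5g (MP_12a1af), block NEARsg: the last windows, small distance, across SPLIT (deterministic)
-/

set_option autoImplicit false

namespace Pool.Agent.Helper57.T5g

open Finset Pool.Agent.Helper22.SL Pool.Agent.Helper57.T5
open Pool.Agent.Helper27.T4 (NN)
open Pool.Agent.Helper30.T5g (RT RT_pos ez BigQ)
open Pool.Agent.Helper84.T5g Pool.Agent.Helper37.T5g
open Pool.Agent.Helper22.NEARsg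
open Pool.Agent.Helper22.NEARg (wW)
open Pool.Agent.Helper63.T5b (NumX)
open Pool.Agent.Helper63.T5g Pool.Agent.Helper44.T5g Pool.Agent.Helper44.T5
open Pool.Agent.Helper63.T5 (lam lam_gt lam_lt)
open Pool.Agent.Helper5.ET (bb)
open Pool.Agent.Helper39.T5g (IrJ eJ hIr_S F0_S)
open Pool.Agent.Helper48.T5g (SplitP)

variable {m : Sq} {k t l' l : ℕ}

/-- sharp bound for the number of labels in a class of a front, across SPLIT -/
theorem IrJ_le_S (hm : m.Ok) (h : PDs m k t l' l) (hS : SplitP m k (sL m k l') l' l)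
    {c : ℝ} (hL : LateN m k c l') (o : JF → ℕ) {r : ℕ} (hr : r ≤ (PN m k t l' l o).h) :
    (IrJ m k l l' t r : ℝ) ≤ max 1 (Real.exp (((lg m k l - lg m k l') -
      (lg m k (ez m (sL m k l - (t + r)) l') - lg m k l')) / 2)) := by
  have hX := numXS hm h hS hL o
  rcases Nat.le_total l (ez m (sL m k l - (t + r)) l') with h1 | h1
  · rw [IrJ_eq_one h1, Nat.cast_one]
    exact le_max_left _ _
  · refine le_trans ?_ (le_max_right _ _)
    have h2 : (PN m k t l' l o).F' r * IrJ m k l l' t r ^ 2 ≤ (PN m k t l' l o).M := by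
      have e1 : (PN m k t l' l o).F' r = Jn m k (sL m k l) (ez m (sL m k l - (t + r)) l') := rfl
      have e2 : (PN m k t l' l o).M = Jn m k (sL m k l) l := rfl
      rw [e1, e2, Pool.Agent.Helper63.T5g.Jn_split m k (sL m k l) h1]
      apply Nat.mul_le_mul_left
      unfold IrJ NN
      rw [← Finset.prod_pow]
      apply Finset.prod_le_prod' (fun i _ => ?_)
      rw [← pow_mul]
      apply Nat.pow_le_pow_right (pJ_prime k _ i).pos
      have h3 := aJ_mono m k (sL m k l) i h1
      have h4 := aJ_mono m k (sL m k l) i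
        (Pool.Agent.Helper30.T5g.lt_ez hm (sL m k l - (t + r)) l').le
      show (uJ m k l l' i - eJ m k l l' t r i) * 2 ≤
        aJ m k (sL m k l) l i - aJ m k (sL m k l) (ez m (sL m k l - (t + r)) l') i
      unfold uJ eJ
      omega
    have hM' := hX.M'_pos
    have h3 : ((PN m k t l' l o).F' r : ℝ) * (IrJ m k l l' t r : ℝ) ^ 2 ≤
        (PN m k t l' l o).M := by exact_mod_cast h2
    rw [hX.F' r hr, hX.M, mul_assoc] at h3
    have h4 := le_of_mul_le_mul_left h3 hM'
    have h5 : (IrJ m k l l' t r : ℝ) ^ 2 ≤ Real.exp ((lg m k l - lg m k l') -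
        (lg m k (ez m (sL m k l - (t + r)) l') - lg m k l')) := by
      rw [Real.exp_sub (lg m k l - lg m k l'), le_div_iff₀ (Real.exp_pos _), mul_comm]
      exact h4
    have h6 : Real.exp (((lg m k l - lg m k l') -
        (lg m k (ez m (sL m k l - (t + r)) l') - lg m k l')) / 2) ^ 2 =
        Real.exp ((lg m k l - lg m k l') -
          (lg m k (ez m (sL m k l - (t + r)) l') - lg m k l')) := by
      rw [← Real.exp_nat_mul]
      congr 1
      push_cast
      ring
    rw [← h6] at h5
    exact le_of_sq_le_sq h5 (Real.exp_pos _).le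

/-- **S9**: the last windows, small distance, across SPLIT -/
theorem pp_botS (hm : m.Ok) (k : ℕ) (hQ : BigQ m k) : ∃ K0 : ℕ, ∀ t l' l, K0 ≤ l' →
    PDs m k t l' l → CaseBt m k t l' l → ∀ w : Key → ℕ,
    ∀ c ∈ Jx m k t l' l, PPx m k t l' l w c ≤ Real.exp (-(dReg m k t l' l)) := by
  classical
  obtain ⟨l1, h1⟩ := exists_lateN hm k (50 * Real.log (2 * KG k))
  obtain ⟨l4, h4⟩ := Pool.Agent.Helper63.T5g.exists_splitP hm k
  refine ⟨max l1 l4, fun t l' l hl' h hcase w c hcJ => ?_⟩
  simp only [max_le_iff] at hl'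
  obtain ⟨g1, g4⟩ := hl'
  have hL := h1 l' g1
  have hS := h4 l' l g4 h.le h.near h.split
  have hX := numXS hm h hS hL c.1
  have hP := PNs_ok hm h hS hL c.1
  have hsb : sb m k t l' l = rL m k l := hcase.1
  have hbeq : bL m k l' = bL m k l := h.bL_eq
  have hr' : rL m k l' + 1 = rL m k l := h.rL_eq
  have hrl := Pool.Agent.Helper27.T5g.rL_bounds hm k l
  have hrle : rL m k l ≤ sL m k l := Nat.sub_le _ _
  have ht1 := h.t1
  have htr := h.tr
  have hh1 : 1 ≤ (PN m k t l' l c.1).h := Pool.Agent.Helper22.NEARg.hb_pos m k t l' l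
  have hidx : sL m k l - (t + (PN m k t l' l c.1).h) = bL m k l := by
    have e1 : t + (PN m k t l' l c.1).h = rL m k l := hsb
    rw [e1]
    have h6 := Pool.Agent.Helper63.T5g.bL_le_idx (m := m) (k := k) (l := l) hm
      (Nat.zero_le _)
    unfold rL
    omega
  have hθ : c.2.1 ∈ Theta (pJ k (sL m k l)) (dJ m k l l' t) := by
    unfold Jx at hcJ
    exact (mem_product.1 (mem_product.1 hcJ).2).1
  have hrt : t ≤ sL m k l + 1 := by omega
  have htk : t ≤ k + 2 := by omega
  have hT : Tg (PN m k t l' l c.1) (nTx m k t l' l c) (XTx m k t l' l c)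
      (IrJ m k l l' t) :=
    Pool.Agent.Helper39.SL.tg_XT hP (DJ_pos m k l l' t) (F0_S h hm)
      (dvd_mul_right _ _) (fun r _ y => hIr_S hm h.com hrt htk hθ r y)
  have hD0 : 0 ≤ lg m k l - lg m k l' := by
    have := lg_mono m k h.le
    linarith
  have hs0 : 0 ≤ lg m k (ez m (sL m k l - (t + (PN m k t l' l c.1).h)) l') - lg m k l' := by
    have := lg_mono m k (Pool.Agent.Helper30.T5g.lt_ez hm
      (sL m k l - (t + (PN m k t l' l c.1).h)) l').le
    linarith
  have hIr := IrJ_le_S hm h hS hL c.1 (le_refl (PN m k t l' l c.1).h)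
  have hlam := lam_gt
  have key := NumX.bot_one hX hT (RT m k (bL m k l)) (RT m k (bL m k l')) (CI := 0) hh1
    (fun h2 => by
      refine hIr.trans (max_le (by rw [Real.exp_zero]) ?_)
      apply Real.exp_le_exp.2
      linarith)
    (by
      refine hIr.trans (max_le ?_ ?_)
      · rw [← Real.exp_zero]
        apply Real.exp_le_exp.2
        linarith
      · apply Real.exp_le_exp.2
        linarith)
    (δ := dReg m k t l' l) (by
      have e1 := hL.c
      rw [hbeq] at e1
      have e2 : (0 : ℝ) ≤ SS m (bL m k l) := Nat.cast_nonneg _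
      have e3 : (wW m k l (sb m k t l' l) : ℝ) = SS m (bL m k l) := by
        unfold wW
        rw [← hidx]
        rfl
      unfold dReg
      rw [e3]
      simp only [hidx]
      nlinarith)
  have e1 : PPx m k t l' l w c =
      ((PP (PN m k t l' l c.1) (nTx m k t l' l c) (XTx m k t l' l c)
        {RT m k (bL m k l)} {RT m k (bL m k l')} : ℕ) : ℝ) *
        (PN m k t l' l c.1).A (PN m k t l' l c.1).h *
        (PN m k t l' l c.1).pc (PN m k t l' l c.1).h := by
    unfold PPx Bw
    rw [hsb, Bw_last_eq, ← hr', Nat.add_sub_cancel, Bw_last_eq]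
  rw [e1]
  exact key

/-- **S9**, the line of the block NEARsg -/
theorem ppBotS (m : Sq) (hm : Pool.Agent.Helper99.T5g.OkF m) :
    Pool.Agent.Helper22.NEARsg.PpBotS m m.k :=
  pp_botS hm.toOk m.k (Pool.Agent.Helper30.T5g.bigQ_of_okF hm)

end Pool.Agent.Helper57.T5g
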