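import Pool.Agent.Helper22.SL.Defs
import Pool.Agent.Helper87.SL.NumDefs

/-!
# T5g: the bottom with one element in the window of the upper state

The number of triples (label, window, window) which fit, if the window of the upper state has one
element: the labels of a fixed lower element are in one class, the lower elements are in one arc.
-/

set_option autoImplicit false

namespace Pool.Agent.Helper57.T5g

open Finset Pool.Agent.Helper22.SL
open Pool.Agent.Helper87.SL (NumL)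

variable {κ : Type*} {P : Pr κ} {Mk : κ → ℕ}

/-- the ranges are increasing -/
theorem FL_mono (hP : P.Ok Mk) : ∀ r ≤ P.h, P.F 0 * P.L 0 ≤ P.F r * P.L r := by
  intro r
  induction r with
  | zero => intro _; exact le_rfl
  | succ r ih =>
    intro hr
    have h1 := ih (by omega)
    have h2 := hP.size r (by omega)
    omega

theorem L_pos (hP : P.Ok Mk) (r : ℕ) : 0 < P.L r := by
  unfold Pr.L
  refine Nat.mul_pos hP.posL (Finset.prod_pos (fun t _ => ?_))
  unfold Pr.Q Pool.Agent.Helper27.T4.NN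
  exact Finset.prod_pos (fun i _ => Nat.pow_pos (hP.prime t i).pos)

/-- **the number of triples, one upper element** -/
theorem PP_le (hP : P.Ok Mk) (hh : 1 ≤ P.h) {I : ℕ} {X Ir : ℕ → ℕ} (hX : Tg P I X Ir)
    {B B' : Finset ℕ} (hB : B.card ≤ 1) {R0 : ℕ}
    (hB' : ∀ a, (B'.filter (fun b => a ≤ b ∧ b < a + (5 * (P.F P.h / P.M') + 1))).card ≤ R0) :
    PP P I X B B' ≤ Ir P.h * R0 := by
  classical
  set S := (range I ×ˢ (B ×ˢ B')).filter
    (fun q => P.M * P.L P.h * q.2.1 + P.M' * P.L P.h * q.2.2 ∈ AP P X P.h q.1) with hS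
  have e0 : PP P I X B B' = S.card := rfl
  rw [e0]
  rcases S.eq_empty_or_nonempty with hE | ⟨q0, hq0⟩
  · rw [hE, card_empty]
    exact Nat.zero_le _
  have hmem : ∀ q ∈ S, q.1 < I ∧ q.2.1 ∈ B ∧ q.2.2 ∈ B' ∧
      P.M * P.L P.h * q.2.1 + P.M' * P.L P.h * q.2.2 ≤ X q.1 ∧
      (P.M * P.L P.h * q.2.1 + P.M' * P.L P.h * q.2.2) % P.F' P.h = X q.1 % P.F' P.h ∧
      X q.1 < P.M * P.L P.h * q.2.1 + P.M' * P.L P.h * q.2.2 + 4 * (P.F P.h * P.L P.h) := by
    intro q hq
    rw [hS, mem_filter, mem_product, mem_product, mem_range] at hq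
    obtain ⟨⟨h1, h2, h3⟩, h4⟩ := hq
    unfold AP at h4
    rw [mem_filter, mem_range] at h4
    exact ⟨h1, h2, h3, by omega, h4.2.2.1, h4.2.2.2⟩
  obtain ⟨a1, a2, a3, a4, a5, a6⟩ := hmem q0 hq0
  have hone : ∀ b ∈ B, b = q0.2.1 := fun b hb => card_le_one.1 hB b hb _ a2
  have hL := L_pos hP P.h
  have hu : 0 < P.M' * P.L P.h := Nat.mul_pos hP.posM' hL
  have hFM : P.M' ∣ P.F P.h := (hP.M'M).trans (hP.MF _ le_rfl)
  have hFL : P.F P.h * P.L P.h = P.M' * P.L P.h * (P.F P.h / P.M') := by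
    conv_lhs => rw [← Nat.mul_div_cancel' hFM]
    ring
  have h0 : 2 * (P.F 0 * P.L 0) ≤ P.F P.h * P.L P.h := by
    obtain ⟨h1, hh1⟩ : ∃ h1, P.h = h1 + 1 := ⟨P.h - 1, by omega⟩
    have h2 := hP.size h1 (by omega)
    have h3 := FL_mono hP h1 (by omega)
    rw [hh1]
    omega
  have hL0 : P.L 0 = P.L0 := by
    unfold Pr.L
    rw [range_zero, prod_empty, mul_one]
  rw [hL0] at h0
  set E := P.F P.h * P.L P.h with hE
  set c := P.M * P.L P.h * q0.2.1 with hc
  set u := P.M' * P.L P.h with hu'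
  set a := (X q0.1 - (4 * E + P.F 0 * P.L0 + c)) / u with ha
  have hmaps : ∀ q ∈ S, q.2.2 ∈ B'.filter (fun b => a ≤ b ∧ b < a + (5 * (P.F P.h / P.M') + 1)) := by
    intro q hq
    obtain ⟨b1, b2, b3, b4, b5, b6⟩ := hmem q hq
    rw [hone _ b2] at b4 b5 b6
    have w1 := hX.win q.1 b1 q0.1 a1
    have w2 := hX.win q0.1 a1 q.1 b1
    rw [mem_filter]
    refine ⟨b3, ?_, ?_⟩
    · rw [ha, Nat.div_le_iff_le_mul_add_pred hu]
      omega
    · have h1 : X q0.1 - (4 * E + P.F 0 * P.L0 + c) < u * (a + 1) := by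
        rw [ha]
        exact Nat.lt_mul_div_succ _ hu
      refine Nat.lt_of_mul_lt_mul_left (a := u) ?_
      have h2 : u * (a + (5 * (P.F P.h / P.M') + 1)) = u * (a + 1) + 5 * E := by
        rw [hFL]
        ring
      rw [h2]
      omega
  have h1 := card_le_mul_card_image_of_maps_to (f := fun q : ℕ × ℕ × ℕ => q.2.2) (s := S)
    (t := B'.filter (fun b => a ≤ b ∧ b < a + (5 * (P.F P.h / P.M') + 1))) hmaps (Ir P.h) ?_
  · exact h1.trans (Nat.mul_le_mul_left _ (hB' a))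
  · intro b' _
    refine le_trans (card_le_card_of_injOn (fun q : ℕ × ℕ × ℕ => q.1) ?_ ?_)
      (hX.cls P.h le_rfl (c + u * b'))
    · intro q hq
      rw [mem_coe, mem_filter] at hq
      obtain ⟨b1, b2, b3, b4, b5, b6⟩ := hmem q hq.1
      rw [hone _ b2, hq.2] at b5
      rw [mem_coe, mem_filter, mem_range]
      exact ⟨b1, b5.symm⟩
    · intro q hq q' hq' hqq
      rw [mem_coe, mem_filter] at hq hq'
      obtain ⟨_, b2, _⟩ := hmem q hq.1
      obtain ⟨_, b2', _⟩ := hmem q' hq'.1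
      refine Prod.ext hqq (Prod.ext ?_ ?_)
      · rw [hone _ b2, hone _ b2']
      · rw [hq.2, hq'.2]

/-- one element on both sides -/
theorem PP_le_one (hP : P.Ok Mk) (hh : 1 ≤ P.h) {I : ℕ} {X Ir : ℕ → ℕ} (hX : Tg P I X Ir)
    {B B' : Finset ℕ} (hB : B.card ≤ 1) (hB' : B'.card ≤ 1) : PP P I X B B' ≤ Ir P.h := by
  have h := PP_le hP hh hX hB (R0 := 1) (fun a => (card_filter_le _ _).trans hB')
  rwa [mul_one] at h

open Real in
/-- **the number `PP * A * pc`** -/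
theorem pp_small {Mk : κ → ℕ} (hP : P.Ok Mk) (hh : 1 ≤ P.h) {d w W0 s s' K0 : ℝ}
    (hN : NumL P d w W0 s s' K0) (hd : d ≤ 0.351 * w) (hjump : s' - s - d ≤ -(w / 512))
    {N Ir R0 : ℕ} (hIr : (Ir : ℝ) ≤ exp ((d - s') / 2) + 1) (hPP : N ≤ Ir * R0) :
    (N : ℝ) * P.A P.h * P.pc P.h ≤ 4 * K0 * R0 * exp (-(0.46 * d)) := by
  have hM'pos : (0 : ℝ) < P.M' := by exact_mod_cast hN.M'0
  have hMpos : (0 : ℝ) < P.M := by rw [hN.M]; positivity
  have hFpos : (0 : ℝ) < P.F P.h := by rw [hN.F]; positivity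
  have hF'pos : (0 : ℝ) < P.F' P.h := by rw [hN.F']; positivity
  have hφeq : (P.F' P.h : ℝ) / P.F P.h = exp (s' - s - d) := by
    rw [hN.F, hN.F', hN.M, mul_assoc, mul_div_mul_left _ _ hM'pos.ne', ← Real.exp_add,
      ← Real.exp_sub]
    congr 1
    ring
  obtain ⟨t1, ht1⟩ : ∃ t1, P.h = t1 + 1 := ⟨P.h - 1, by omega⟩
  have hpce : P.pc P.h = (P.F' P.h : ℝ) / P.F P.h + 1 / (P.q t1 2 : ℝ) := by
    rw [ht1]
    rfl
  have hsl := hN.sl
  have hsu := hN.su
  have hsl' := hN.sl'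
  have hsu' := hN.su'
  have hw0 := hN.w0
  have hd0 := hN.D0
  have hdeep := hN.deep
  have hpc : P.pc P.h ≤ 2 * exp (s' - s - d) := by
    have e2 := hN.q2 t1 ht1
    have e4 : 1 / (P.q t1 2 : ℝ) ≤ exp (s' - s - d) := by
      rw [one_div]
      refine (inv_anti₀ (exp_pos _) e2).trans ?_
      rw [← Real.exp_neg]
      apply Real.exp_le_exp.2
      linarith
    rw [hpce, hφeq]
    linarith
  have hpc0 : 0 ≤ P.pc P.h := by
    rw [hpce]
    positivity
  have hA0 : 0 ≤ P.A P.h := by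
    unfold Pr.A
    exact Finset.prod_nonneg (fun r _ => by positivity)
  have hK0 := hN.K1
  have e1 : exp ((d - s') / 2) * exp (s' - s - d) ≤ exp (-(0.46 * d)) := by
    rw [← Real.exp_add]
    apply Real.exp_le_exp.2
    linarith
  have e2 : exp (s' - s - d) ≤ exp (-(0.46 * d)) := by
    apply Real.exp_le_exp.2
    rcases le_or_gt (0.46 * d) (w / 512) with h | h
    · linarith
    · linarith
  have hN' : (N : ℝ) ≤ (exp ((d - s') / 2) + 1) * R0 := by
    have h1 : (N : ℝ) ≤ (Ir : ℝ) * R0 := by exact_mod_cast hPP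
    exact h1.trans (mul_le_mul_of_nonneg_right hIr (Nat.cast_nonneg _))
  have hN0 : (0 : ℝ) ≤ (exp ((d - s') / 2) + 1) * R0 :=
    mul_nonneg (by positivity) (Nat.cast_nonneg _)
  calc (N : ℝ) * P.A P.h * P.pc P.h
      ≤ ((exp ((d - s') / 2) + 1) * R0) * K0 * (2 * exp (s' - s - d)) :=
        mul_le_mul (mul_le_mul hN' hN.A hA0 hN0) hpc hpc0 (mul_nonneg hN0 (by linarith))
    _ = 2 * K0 * R0 * (exp ((d - s') / 2) * exp (s' - s - d) + exp (s' - s - d)) := by ring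
    _ ≤ 2 * K0 * R0 * (exp (-(0.46 * d)) + exp (-(0.46 * d))) :=
        mul_le_mul_of_nonneg_left (add_le_add e1 e2) (by positivity)
    _ = 4 * K0 * R0 * exp (-(0.46 * d)) := by ring

end Pool.Agent.Helper57.T5g
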