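import Pool.Agent.Helper30.T5g.Size
import Mathlib.NumberTheory.Chebyshev

/-!
# T5g (MP_12a1af): the primes of the digits are at most quadratic in the number of levels

`BP k ≤ 2 ^ (2 * log2 (k + 1) + N)` from the central binomial bound for `π`.
-/

set_option autoImplicit false

namespace Pool.Agent.Helper57.T5g

open Pool.Agent.Helper37.T5g Pool.Agent.Helper30.T5g
open Pool.Agent.Helper27.T5 (sp)

/-- `π (16 m²) ≥ m` -/
theorem le_primeCounting (m : ℕ) (hm : 1 ≤ m) : m ≤ Nat.primeCounting (16 * m ^ 2) := by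
  have h0 := Chebyshev.pi_ge (16 * m ^ 2)
  have hm1 : (1 : ℝ) ≤ (m : ℝ) := by exact_mod_cast hm
  have hm0 : (0 : ℝ) < (m : ℝ) := by linarith
  have hl2 := Real.log_two_gt_d9
  have hl2' := Real.log_two_lt_d9
  have hlm : Real.log (m : ℝ) ≤ (m : ℝ) - 1 := Real.log_le_sub_one_of_pos hm0
  have hlm0 : 0 ≤ Real.log (m : ℝ) := Real.log_nonneg hm1
  have e1 : Real.log ((16 * m ^ 2 : ℕ) : ℝ) = 4 * Real.log 2 + 2 * Real.log m := by
    push_cast
    rw [Real.log_mul (by norm_num) (by positivity), Real.log_pow,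
      show (16 : ℝ) = 2 ^ 4 by norm_num, Real.log_pow]
    push_cast
    ring
  have e2 : Real.log (((16 * m ^ 2 : ℕ) : ℝ) + 1) ≤ 5 * Real.log 2 + 2 * Real.log m := by
    have : Real.log (((16 * m ^ 2 : ℕ) : ℝ) + 1) ≤ Real.log (2 ^ 5 * (m : ℝ) ^ 2) := by
      refine Real.log_le_log (by positivity) ?_
      push_cast
      nlinarith
    refine this.trans (le_of_eq ?_)
    rw [Real.log_mul (by norm_num) (by positivity), Real.log_pow, Real.log_pow]
    push_cast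
    ring
  have hpos : 0 < Real.log ((16 * m ^ 2 : ℕ) : ℝ) := by
    rw [e1]
    linarith
  have h1 : (m : ℝ) ≤ (Nat.primeCounting (16 * m ^ 2) : ℝ) := by
    refine le_trans ?_ h0
    rw [le_div_iff₀ hpos, e1]
    refine le_trans ?_ (sub_le_sub_left e2 _)
    push_cast
    have k1 : (m : ℝ) * Real.log m ≤ m * (m - 1) := mul_le_mul_of_nonneg_left hlm hm0.le
    have k2 : (m : ℝ) * Real.log 2 ≤ m * 0.6931471808 :=
      mul_le_mul_of_nonneg_left hl2'.le hm0.le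
    have k3 : (m : ℝ) ^ 2 * 0.6931471803 ≤ m ^ 2 * Real.log 2 :=
      mul_le_mul_of_nonneg_left hl2.le (by positivity)
    have k4 : (m : ℝ) ≤ m ^ 2 := by nlinarith
    nlinarith
  exact_mod_cast h1

/-- the `i`-th prime is at most `16 (i + 1)²` -/
theorem nth_prime_le (i : ℕ) : Nat.nth Nat.Prime i ≤ 16 * (i + 1) ^ 2 := by
  have h := le_primeCounting (i + 1) (by omega)
  unfold Nat.primeCounting Nat.primeCounting' at h
  have h2 : Nat.nth Nat.Prime i < 16 * (i + 1) ^ 2 + 1 :=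
    Nat.nth_lt_of_lt_count (by omega)
  omega

theorem sp_le (n : ℕ) : sp n ≤ 16 * (n + 10 ^ 6 + 1) ^ 2 := nth_prime_le _

/-- all primes in use are at most `2 ^ (2 log2 (k + 1) + N)` -/
theorem exists_BP_le_sq : ∃ N : ℕ, ∀ k, BP k ≤ 2 ^ (2 * Nat.log 2 (k + 1) + N) := by
  refine ⟨60, fun k => ?_⟩
  have h1 : BP k ≤ 16 * (3 * (k + 3) + 10 ^ 6 + 1) ^ 2 := sp_le _
  have h2 : 3 * (k + 3) + 10 ^ 6 + 1 ≤ 2 ^ 20 * (k + 1) := by
    have : (2 : ℕ) ^ 20 = 1048576 := by norm_num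
    rw [this]
    omega
  have h3 : k + 1 ≤ 2 ^ (Nat.log 2 (k + 1) + 1) :=
    (Nat.lt_pow_succ_log_self (by norm_num) _).le
  calc BP k ≤ 16 * (3 * (k + 3) + 10 ^ 6 + 1) ^ 2 := h1
    _ ≤ 16 * (2 ^ 20 * 2 ^ (Nat.log 2 (k + 1) + 1)) ^ 2 :=
        Nat.mul_le_mul_left _ (Nat.pow_le_pow_left (h2.trans (Nat.mul_le_mul_left _ h3)) 2)
    _ = 2 ^ (2 * Nat.log 2 (k + 1) + 46) := by
        rw [show (16 : ℕ) = 2 ^ 4 by norm_num, ← pow_add, ← pow_mul, ← pow_add]
        congr 1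
        ring
    _ ≤ 2 ^ (2 * Nat.log 2 (k + 1) + 60) := Nat.pow_le_pow_right (by norm_num) (by omega)

/-- size of the quotient exponent: `(k + 4) * gr + C ≤ 8 k log2 k` for large `k` -/
theorem exists_q_le (N C : ℕ) : ∃ k0 : ℕ, ∀ k, k0 ≤ k →
    (k + 4) * (2 * Nat.log 2 (k + 1) + N) + C ≤ 8 * (k * Nat.log 2 k) := by
  refine ⟨2 ^ (N + C + 8), fun k hk => ?_⟩
  have hL : N + C + 8 ≤ Nat.log 2 k := by
    refine (Nat.le_log_iff_pow_le (by norm_num) ?_).2 hk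
    have : 0 < 2 ^ (N + C + 8) := by positivity
    omega
  have hk1 : 2 ^ 8 ≤ 2 ^ (N + C + 8) := Nat.pow_le_pow_right (by norm_num) (by omega)
  have hk4 : k + 4 ≤ 2 * k := by
    have : (2 : ℕ) ^ 8 = 256 := by norm_num
    omega
  have hlog : Nat.log 2 (k + 1) ≤ Nat.log 2 k + 1 := by
    refine (Nat.log_mono_right (b := 2) (show k + 1 ≤ k * 2 by omega)).trans ?_
    rw [Nat.log_mul_base (by norm_num) (by omega)]
  set L := Nat.log 2 k with hLdef
  have h1 : (k + 4) * (2 * Nat.log 2 (k + 1) + N) ≤ 2 * k * (2 * (L + 1) + N) :=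
    Nat.mul_le_mul hk4 (by omega)
  have h2 : 2 * k * (2 * (L + 1) + N) + C ≤ 2 * k * (2 * (L + 1) + N + C) := by
    have : C ≤ 2 * k * C := by
      have : 1 * C ≤ (2 * k) * C := Nat.mul_le_mul_right _ (by omega)
      simpa using this
    nlinarith
  have h3 : 2 * (L + 1) + N + C ≤ 4 * L := by omega
  calc (k + 4) * (2 * Nat.log 2 (k + 1) + N) + C ≤ 2 * k * (2 * (L + 1) + N) + C := by omega
    _ ≤ 2 * k * (2 * (L + 1) + N + C) := h2
    _ ≤ 2 * k * (4 * L) := Nat.mul_le_mul_left _ h3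
    _ = 8 * (k * L) := by ring

end Pool.Agent.Helper57.T5g
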