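import Pool.Agent.Helper84.T5g.Pair
import Pool.Agent.Helper27.T5g.Range
import Pool.Agent.Helper22.HW.Stack

/-!
# T5g (MP_12a1af): the windows with one element
-/

set_option autoImplicit false

namespace Pool.Agent.Helper57.T5g

open Finset Pool.Agent.Helper27.T4 Pool.Agent.Helper37.T5g
open Pool.Agent.Helper5.ET (bb era)
open Pool.Agent.Helper30.T5g (RT NL BP RT_pos)
open Pool.Agent.Helper84.T5g Pool.Agent.Helper42.T5.Pr
open Pool.Agent.Helper22.HW (cN)

/-- the pairs of window elements with a given sum -/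
noncomputable def vprs (m : Sq) (k l l' : ℕ) (w : Key → ℕ) (n : ℕ) : Finset (ℕ × ℕ) :=
  (Vw m k l w ×ˢ Vw m k l' w).filter (fun q => Un m k l * q.1 + Un m k l' * q.2 = n)

theorem Vw_eq (m : Sq) (k l : ℕ) (w : Key → ℕ) : Vw m k l w = {RT m k (bL m k l)} := rfl

theorem mem_Vw {m : Sq} {k l v : ℕ} {w : Key → ℕ} :
    v ∈ Vw m k l w ↔ v = RT m k (bL m k l) := by
  rw [Vw_eq, mem_singleton]

theorem card_Vw (m : Sq) (k l : ℕ) (w : Key → ℕ) : (Vw m k l w).card = 1 := by
  rw [Vw_eq, card_singleton]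

theorem mem_Vw_lt {m : Sq} {k l v : ℕ} {w : Key → ℕ} (hv : v ∈ Vw m k l w) :
    RT m k (bL m k l) ≤ v ∧ v < 16 * RT m k (bL m k l) := by
  have h := RT_pos m k (bL m k l)
  rw [mem_Vw] at hv
  omega

/-- at most one pair of window elements -/
theorem vprs_le (m : Sq) (k l l' : ℕ) (w : Key → ℕ) (n : ℕ) : (vprs m k l l' w n).card ≤ 1 := by
  unfold vprs
  refine (card_filter_le _ _).trans ?_
  rw [card_product, card_Vw, card_Vw]

/-- the counting form of two windows with one element -/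
theorem cN_single {U U' : Finset ℕ} (hU : U.card ≤ 1) (hU' : U'.card ≤ 1) {I M D : ℕ}
    (hM : 0 < M) {cl : ℕ → ℕ} {R : ℕ}
    (hcl : ∀ x, ((range I).filter (fun i => cl i % D = x)).card ≤ R) (κ₂ n : ℕ) :
    cN U U' I M D cl κ₂ n ≤ R := by
  classical
  unfold cN
  rcases ((range I ×ˢ (U ×ˢ U')).filter
    (fun t => t.2.1 + t.2.2 + M * ((cl t.1) % D + κ₂ * D) = n)).eq_empty_or_nonempty with h | h
  · rw [h, card_empty]
    exact Nat.zero_le _
  · obtain ⟨t₀, ht₀⟩ := h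
    rw [mem_filter, mem_product, mem_product] at ht₀
    obtain ⟨⟨h1, h2, h3⟩, h4⟩ := ht₀
    refine le_trans (card_le_card_of_injOn (fun t => t.1) ?_ ?_) (hcl (cl t₀.1 % D))
    · intro t ht
      rw [mem_coe, mem_filter, mem_product, mem_product] at ht
      obtain ⟨⟨g1, g2, g3⟩, g4⟩ := ht
      have e1 : t.2.1 = t₀.2.1 := card_le_one.1 hU _ g2 _ h2
      have e2 : t.2.2 = t₀.2.2 := card_le_one.1 hU' _ g3 _ h3
      rw [e1, e2, ← h4] at g4
      have g5 := Nat.eq_of_mul_eq_mul_left hM (Nat.add_left_cancel g4)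
      rw [mem_coe, mem_filter]
      exact ⟨g1, Nat.add_right_cancel g5⟩
    · intro t ht s hs hts
      rw [mem_coe, mem_filter, mem_product, mem_product] at ht hs
      obtain ⟨⟨g1, g2, g3⟩, -⟩ := ht
      obtain ⟨⟨f1, f2, f3⟩, -⟩ := hs
      exact Prod.ext hts (Prod.ext (card_le_one.1 hU _ g2 _ f2) (card_le_one.1 hU' _ g3 _ f3))

end Pool.Agent.Helper57.T5g
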